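import Pool.Agent.Helper8.Sey.Goals

/-! Packet CHEB of project SEY (MP_b6b2d3_co, helper8): Chebyshev for locally dependent events. -/

set_option autoImplicit false

namespace Pool.Agent.Helper50.Sey

open Finset
open Pool.Agent.Helper41.Girth4
open Pool.Agent.Helper8.Sey
open Pool.Agent.Helper51.Girth4 (Pr_indep)

theorem goalCHEB : GoalCHEB := by
  classical
  intro V L _ _ _ S A Reg R p δ hS hp hδ hloc hR hPr
  have hfL := Fintype.ofFinite L
  obtain ⟨N, hNd⟩ : ∃ N : ℝ, N = Fintype.card (V → L) := ⟨_, rfl⟩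
  have hN : 0 < N := by
    rw [hNd]
    exact_mod_cast Fintype.card_pos
  obtain ⟨I, hI⟩ : ∃ I : V → (V → L) → ℝ, I = fun s ω => if A s ω then 1 else 0 := ⟨_, rfl⟩
  obtain ⟨μ, hμd⟩ : ∃ μ : ℝ, μ = ∑ s ∈ S, Pr (A s) := ⟨_, rfl⟩
  have hX : ∀ ω, (Nat.card {s // s ∈ S ∧ A s ω} : ℝ) = ∑ s ∈ S, I s ω := by
    intro ω
    rw [hI]
    rw [Finset.sum_boole, Nat.card_eq_fintype_card, Fintype.card_subtype]
    congr 2
    ext s
    simp
  have hP1 : ∀ s, ∑ ω, I s ω = N * Pr (A s) := by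
    intro s
    rw [Pr_eq_sum, hI, hNd]
    rw [hNd] at hN
    field_simp
  have hP2 : ∀ s t, ∑ ω, I s ω * I t ω = N * Pr (fun ω => A s ω ∧ A t ω) := by
    intro s t
    rw [Pr_eq_sum, hI, hNd]
    rw [hNd] at hN
    have e : ∀ ω : V → L, (if A s ω then (1 : ℝ) else 0) * (if A t ω then (1 : ℝ) else 0) =
        if A s ω ∧ A t ω then (1 : ℝ) else 0 := by
      intro ω
      by_cases h1 : A s ω <;> by_cases h2 : A t ω <;> simp [h1, h2]
    simp only [e]
    field_simp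
  have hμ : p * S.card ≤ μ := by
    rw [hμd]
    calc p * S.card = ∑ s ∈ S, p := by simp [mul_comm]
      _ ≤ ∑ s ∈ S, Pr (A s) := Finset.sum_le_sum hPr
  have hvar : ∑ ω, (∑ s ∈ S, I s ω - μ) ^ 2 =
      N * ∑ s ∈ S, ∑ t ∈ S, (Pr (fun ω => A s ω ∧ A t ω) - Pr (A s) * Pr (A t)) := by
    have e1 : ∑ ω, (∑ s ∈ S, I s ω) ^ 2 =
        N * ∑ s ∈ S, ∑ t ∈ S, Pr (fun ω => A s ω ∧ A t ω) := by
      calc ∑ ω, (∑ s ∈ S, I s ω) ^ 2 = ∑ ω, ∑ s ∈ S, ∑ t ∈ S, I s ω * I t ω := by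
            refine Finset.sum_congr rfl fun ω _ => ?_
            rw [sq, Finset.sum_mul_sum]
        _ = ∑ s ∈ S, ∑ t ∈ S, ∑ ω, I s ω * I t ω := by
            rw [Finset.sum_comm]
            refine Finset.sum_congr rfl fun s _ => ?_
            rw [Finset.sum_comm]
        _ = N * ∑ s ∈ S, ∑ t ∈ S, Pr (fun ω => A s ω ∧ A t ω) := by
            rw [Finset.mul_sum]
            refine Finset.sum_congr rfl fun s _ => ?_
            rw [Finset.mul_sum]
            exact Finset.sum_congr rfl fun t _ => hP2 s t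
    have e2 : ∑ ω, ∑ s ∈ S, I s ω = N * μ := by
      rw [Finset.sum_comm, hμd, Finset.mul_sum]
      exact Finset.sum_congr rfl fun s _ => hP1 s
    have e3 : ∑ _ω : V → L, μ ^ 2 = N * μ ^ 2 := by
      rw [Finset.sum_const, Finset.card_univ, nsmul_eq_mul, hNd]
    have e4 : μ ^ 2 = ∑ s ∈ S, ∑ t ∈ S, Pr (A s) * Pr (A t) := by
      rw [sq, hμd, Finset.sum_mul_sum]
    calc ∑ ω, (∑ s ∈ S, I s ω - μ) ^ 2
        = ∑ ω, ((∑ s ∈ S, I s ω) ^ 2 - 2 * μ * (∑ s ∈ S, I s ω) + μ ^ 2) :=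
          Finset.sum_congr rfl fun ω _ => by ring
      _ = N * ∑ s ∈ S, ∑ t ∈ S, Pr (fun ω => A s ω ∧ A t ω) - N * μ ^ 2 := by
          rw [Finset.sum_add_distrib, Finset.sum_sub_distrib, ← Finset.mul_sum, e1, e2, e3]
          ring
      _ = _ := by
          rw [e4, ← mul_sub, ← Finset.sum_sub_distrib]
          congr 1
          exact Finset.sum_congr rfl fun s _ => by rw [← Finset.sum_sub_distrib]
  have hterm : ∀ s t, Pr (fun ω => A s ω ∧ A t ω) - Pr (A s) * Pr (A t) ≤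
      if ¬ Disjoint (Reg s) (Reg t) then (1 : ℝ) else 0 := by
    intro s t
    by_cases h : Disjoint (Reg s) (Reg t)
    · rw [if_neg (not_not.2 h)]
      have e := Pr_indep (Reg s) (A s) (A t) (hloc s) (fun ω ω' hω => hloc t ω ω' fun i hi =>
        hω i fun hi' => Set.disjoint_left.1 h hi' hi)
      rw [e, sub_self]
    · rw [if_pos h]
      have e1 := Pr_le_one (fun ω : V → L => A s ω ∧ A t ω)
      have e2 := mul_nonneg (Pr_nonneg (A s)) (Pr_nonneg (A t))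
      linarith
  have hle : ∑ ω, (∑ s ∈ S, I s ω - μ) ^ 2 ≤ N * (S.card * R) := by
    rw [hvar]
    refine mul_le_mul_of_nonneg_left ?_ hN.le
    calc ∑ s ∈ S, ∑ t ∈ S, (Pr (fun ω => A s ω ∧ A t ω) - Pr (A s) * Pr (A t))
        ≤ ∑ s ∈ S, (R : ℝ) := by
          refine Finset.sum_le_sum fun s hs => ?_
          calc ∑ t ∈ S, (Pr (fun ω => A s ω ∧ A t ω) - Pr (A s) * Pr (A t))
              ≤ ∑ t ∈ S, (if ¬ Disjoint (Reg s) (Reg t) then (1 : ℝ) else 0) :=
                Finset.sum_le_sum fun t _ => hterm s t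
            _ ≤ ∑ t, (if ¬ Disjoint (Reg s) (Reg t) then (1 : ℝ) else 0) :=
                Finset.sum_le_univ_sum_of_nonneg fun t => by split_ifs <;> norm_num
            _ = (Nat.card {t // ¬ Disjoint (Reg s) (Reg t)} : ℝ) := by
                rw [Finset.sum_boole, Nat.card_eq_fintype_card, Fintype.card_subtype]
            _ ≤ R := by exact_mod_cast hR s hs
      _ = S.card * R := by simp
  -- Chebyshev
  have hSc : (0 : ℝ) < S.card := by exact_mod_cast hS.card_pos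
  obtain ⟨c, hc⟩ : ∃ c : ℝ, c = δ * p * S.card := ⟨_, rfl⟩
  have hc0 : 0 < c := by
    rw [hc]
    positivity
  have hbad : ∀ ω, (if (Nat.card {s // s ∈ S ∧ A s ω} : ℝ) ≤ (1 - δ) * p * S.card
      then (1 : ℝ) else 0) * c ^ 2 ≤ (∑ s ∈ S, I s ω - μ) ^ 2 := by
    intro ω
    by_cases h : (Nat.card {s // s ∈ S ∧ A s ω} : ℝ) ≤ (1 - δ) * p * S.card
    · rw [if_pos h, one_mul]
      rw [hX] at h
      have e1 : c ≤ μ - ∑ s ∈ S, I s ω := by
        rw [hc]
        linarith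
      have e2 : c ^ 2 ≤ (μ - ∑ s ∈ S, I s ω) ^ 2 := pow_le_pow_left₀ hc0.le e1 2
      calc c ^ 2 ≤ (μ - ∑ s ∈ S, I s ω) ^ 2 := e2
        _ = (∑ s ∈ S, I s ω - μ) ^ 2 := by ring
    · rw [if_neg h, zero_mul]
      positivity
  have hsum := Finset.sum_le_sum fun ω (_ : ω ∈ (Finset.univ : Finset (V → L))) => hbad ω
  rw [← Finset.sum_mul] at hsum
  have hfin := hsum.trans hle
  rw [Pr_eq_sum, ← hNd, div_le_div_iff₀ hN (by positivity)]
  have e5 : c ^ 2 = δ ^ 2 * p ^ 2 * S.card * S.card := by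
    rw [hc]
    ring
  rw [e5] at hfin
  refine le_of_mul_le_mul_right ?_ hSc
  linarith

end Pool.Agent.Helper50.Sey
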